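import Pool.Agent.Q112.BFC.Main

/-!
Problem MP_e8ee11_co (the Beck–Fiala conjecture), for set systems that are closed under Boolean
operations.

A Boolean operation `f` of arity `k` acts coordinatewise on the subsets of the ground set. For every
set `Φ` of Boolean operations the conjecture restricted to the systems closed under `Φ` is either
true, or equivalent to the conjecture for intersection-closed systems, or equivalent to the whole
conjecture.
-/

set_option autoImplicit false

open Finset Q112.BFC

namespace Pool.Agent.Results.MP_e8ee11_co.BooleanOperations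

/-- `f` is a constant or a projection. -/
def IsTrivial {k : ℕ} (f : (Fin k → Bool) → Bool) : Prop :=
  (∀ v, f v = false) ∨ (∀ v, f v = true) ∨ ∃ i, ∀ v, f v = v i

/-- `f` is the conjunction of two or more variables. -/
def IsMeet {k : ℕ} (f : (Fin k → Bool) → Bool) : Prop :=
  ∃ I : Finset (Fin k), 2 ≤ I.card ∧ ∀ v, f v = true ↔ ∀ i ∈ I, v i = true

/-- The Beck–Fiala conjecture for the set systems whose set of members has the property `P`. -/
def BeckFiala (P : ∀ n : ℕ, Finset (Finset (Fin n)) → Prop) : Prop :=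
  ∃ C : ℝ, 0 < C ∧ ∀ (n m t : ℕ) (S : Fin m → Finset (Fin n)), P n (univ.image S) →
    (∀ i : Fin n, (univ.filter (fun j : Fin m => i ∈ S j)).card ≤ t) →
    ∃ χ : Fin n → ℤ, (∀ i, χ i = 1 ∨ χ i = -1) ∧
      ∀ j : Fin m, ((|∑ i ∈ S j, χ i| : ℤ) : ℝ) ≤ C * Real.sqrt (t : ℝ)

/-- The family `F` is closed under the operation `f`, applied coordinatewise. -/
def Closed {n k : ℕ} (f : (Fin k → Bool) → Bool) (F : Finset (Finset (Fin n))) : Prop :=
  ∀ T : Fin k → Finset (Fin n), (∀ i, T i ∈ F) →
    (univ.filter fun x => f (fun i => decide (x ∈ T i)) = true) ∈ F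

theorem result :
    -- (1) one constant for all the systems that are closed under an operation which is neither
    -- trivial nor a conjunction of variables
    BeckFiala (fun n F => (∀ S ∈ F, ∀ T ∈ F, ∀ U ∈ F, ∃ V ∈ F, V ∩ S = (T ∪ U) ∩ S) ∨
      ∃ (k : ℕ) (f : (Fin k → Bool) → Bool), ¬ IsTrivial f ∧ ¬ IsMeet f ∧ Closed f F) ∧
    -- (2) conjunctions: intersection-closed systems
    (∀ Φ : Set (Σ k : ℕ, (Fin k → Bool) → Bool), (∀ f ∈ Φ, IsTrivial f.2 ∨ IsMeet f.2) →
      (∃ f ∈ Φ, IsMeet f.2) →
      (BeckFiala (fun n F => ∀ f ∈ Φ, Closed (n := n) f.2 F) ↔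
        BeckFiala (fun n F => ∀ S ∈ F, ∀ T ∈ F, S ∩ T ∈ F))) ∧
    -- (3) constants and projections: all systems
    (∀ Φ : Set (Σ k : ℕ, (Fin k → Bool) → Bool), (∀ f ∈ Φ, IsTrivial f.2) →
      (BeckFiala (fun n F => ∀ f ∈ Φ, Closed (n := n) f.2 F) ↔ BeckFiala (fun _ _ => True))) := by
  classical
  have hconj : ∀ {k : ℕ} (f : (Fin k → Bool) → Bool), IsConj f → IsTrivial f ∨ IsMeet f := by
    intro k f hf
    obtain ⟨I, hI⟩ := hf
    rcases Nat.lt_or_ge I.card 2 with h | h
    · left
      have : I.card = 0 ∨ I.card = 1 := by omega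
      rcases this with h | h
      · rw [card_eq_zero] at h
        subst h
        exact Or.inr (Or.inl fun v => (hI v).2 (by simp))
      · obtain ⟨i, rfl⟩ := card_eq_one.1 h
        refine Or.inr (Or.inr ⟨i, fun v => ?_⟩)
        have := hI v
        simp only [mem_singleton, forall_eq] at this
        exact Bool.eq_iff_iff.2 this
    · exact Or.inr ⟨I, h, hI⟩
  have hext : ∀ {n : ℕ} (Φ : Set (Σ k : ℕ, (Fin k → Bool) → Bool)) (F : Finset (Finset (Fin n))),
      (∀ f ∈ Φ, IsTrivial f.2 ∨ (IsMeet f.2 ∧ InterClosed F)) →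
      ∀ f ∈ Φ, Closed f.2 (insert ∅ (insert univ F)) := by
    intro n Φ F hΦ f hf
    rcases hΦ f hf with (h | h | ⟨i, h⟩) | ⟨⟨I, _, hI⟩, hF⟩
    · intro T _
      simp only [h]
      simp
    · intro T _
      simp only [h]
      simp
    · intro T hT
      simp only [h, decide_eq_true_eq]
      have := hT i
      simpa using this
    · have hF' : InterClosed (insert ∅ (insert univ F)) := by
        intro S hS T hT
        rw [mem_insert, mem_insert] at hS hT
        rcases hS with rfl | rfl | hS
        · simp
        · rw [univ_inter, mem_insert, mem_insert]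
          exact hT
        · rcases hT with rfl | rfl | hT
          · simp
          · rw [inter_univ]
            exact mem_insert_of_mem (mem_insert_of_mem hS)
          · exact mem_insert_of_mem (mem_insert_of_mem (hF S hS T hT))
      exact closed_conj hI (by simp) hF'
  have hBF : ∀ P, BeckFiala P ↔ Conj P := fun P => Iff.rfl
  simp only [hBF]
  refine ⟨?_, ?_, ?_⟩
  · refine Conj.mono conj_closed fun n F h => ?_
    rcases h with h | ⟨k, f, h1, h2, h3⟩
    · exact Or.inl h
    · refine Or.inr ⟨k, f, fun h => ?_, ?_, h3⟩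
      · rcases hconj f h with h | h
        · exact h1 h
        · exact h2 h
      · by_contra hcon
        push Not at hcon
        exact h1 (Or.inl fun v => by simpa using hcon v)
  · intro Φ hΦ hex
    constructor
    · intro h
      refine conj_extend (P := fun n F => ∀ f ∈ Φ, Closed (n := n) f.2 F) h fun n F hF => ?_
      refine hext Φ F fun f hf => ?_
      rcases hΦ f hf with h1 | h1
      · exact Or.inl h1
      · exact Or.inr ⟨h1, hF⟩
    · intro h
      refine Conj.mono (P := fun n F => ∀ S ∈ F, ∀ T ∈ F, S ∩ T ∈ F) h fun n F hF => ?_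
      obtain ⟨f, hf, I, hI2, hI⟩ := hex
      exact inter_closed_of hI hI2 (hF f hf)
  · intro Φ hΦ
    constructor
    · intro h
      refine conj_extend (P := fun n F => ∀ f ∈ Φ, Closed (n := n) f.2 F) h fun n F _ => ?_
      exact hext Φ F fun f hf => Or.inl (hΦ f hf)
    · intro h
      exact Conj.mono (P := fun _ _ => True) h fun n F _ => trivial

end Pool.Agent.Results.MP_e8ee11_co.BooleanOperations
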