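import Mathlib
import Pool.Agent.Q299.LP.Phase

/-!
# The Beck–Fiala problem for systems close to low rank

There is an absolute constant `C` with the following properties. Let `t ≥ 1`.

(1) Let `A` be a real `m × n` matrix with entries of absolute value at most one and `ℓ₁` norms of
the columns at most `t`, let `L` be any `m × n` matrix of rank `r` and `D` any `k × n` matrix. Let
`T_i, U_i ≥ 0` be such that for every set `X` of columns at most `|X| / 40` rows of `A - L` have
`ℓ₁` mass more than `T_i` on `X`, and at most `|X| / 40` rows of `D` have `ℓ₁` mass more than `U_i`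
on `X`. For every starting point `x₀ ∈ [-1,1]^n` there are signs `x` such that, with
`s = 1 + log (1 + r)`, for all `i`
`|A (x - x₀)|_i ≤ 2 T_i + C min (√t s^{1/4}, √t + (1 + log t)^{3/2} √s)` and
`|D (x - x₀)|_i ≤ 2 U_i`.

(2) Every set system of maximum degree at most `t` whose incidence matrix differs from some real
matrix of rank at most `exp (t / (1 + log t)^3)` by at most `√t` in every column (`ℓ₁` norm) has
discrepancy at most `C √t`.

(3) In particular, if all elements lie in at most `t` sets and in at most `√t` sets outside a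
subfamily of at most `exp (t / (1 + log t)^3)` sets, then the discrepancy is at most `C √t`.

Proof. Linear algebra with the rows of `L` and the heavy rows of `A - L` and `D`, until at most
`2 r` elements are uncoloured; then the method of Bansal and Jiang (library `H167R2`), in which the
heavy rows of `D` are kept fixed.
-/

set_option autoImplicit false

namespace Pool.Agent.Results.MP_e8ee11_co.NearLowRank

open Finset

/-- Part (1) with a constant. -/
theorem part_one (m n k : ℕ) (t : ℝ) (A L : Matrix (Fin m) (Fin n) ℝ)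
    (D : Matrix (Fin k) (Fin n) ℝ) (T : Fin m → ℝ) (U : Fin k → ℝ) (x₀ : Fin n → ℝ)
    (ht : 1 ≤ t) (hA : ∀ i j, |A i j| ≤ 1) (hcol : ∀ j, ∑ i, |A i j| ≤ t)
    (hT : ∀ i, 0 ≤ T i) (hU : ∀ i, 0 ≤ U i)
    (hX : ∀ X : Finset (Fin n),
      40 * (univ.filter fun i => T i < ∑ j ∈ X, |A i j - L i j|).card ≤ X.card ∧
      40 * (univ.filter fun i => U i < ∑ j ∈ X, |D i j|).card ≤ X.card)
    (hx₀ : ∀ j, |x₀ j| ≤ 1) :
    ∃ x : Fin n → ℝ, (∀ j, x j = 1 ∨ x j = -1) ∧
      (∀ i, |∑ j, A i j * (x j - x₀ j)| ≤ 2 * T i + 200000000 * min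
        (Real.sqrt t * (1 + Real.log (1 + L.rank)) ^ (1 / 4 : ℝ))
        (Real.sqrt t + (1 + Real.log t) ^ (3 / 2 : ℝ) *
          Real.sqrt (1 + Real.log (1 + L.rank)))) ∧
      ∀ i, |∑ j, D i j * (x j - x₀ j)| ≤ 2 * U i := by
  classical
  have ht0 : 0 < t := by linarith
  have hst0 : 0 < Real.sqrt t := Real.sqrt_pos.mpr ht0
  have hst1 : 1 ≤ Real.sqrt t := Real.one_le_sqrt.mpr ht
  have hsq : Real.sqrt t ^ 2 = t := Real.sq_sqrt ht0.le
  set δ : ℝ := 1 / Real.sqrt t with hδ
  have hδ0 : 0 < δ := by positivity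
  have hδ1 : δ ≤ 1 := by rw [hδ, div_le_one hst0]; exact hst1
  obtain ⟨g, hg⟩ := Pool.Agent.Q299.LP.rank_funcs (fun j i => L i j) L.rank (by
    rw [Matrix.rank_eq_finrank_span_cols]
    exact le_of_eq rfl)
  obtain ⟨y, hy1, -, hy3, hy4⟩ := Pool.Agent.Q299.LP.near_rank (fun i j => A i j / Real.sqrt t) δ
    hδ0 hδ1 (fun i j => by
      rw [abs_div, abs_of_pos hst0]
      exact div_le_div_of_nonneg_right (hA i j) hst0.le) (fun j => by
      have h1 : ∀ i, (A i j / Real.sqrt t) ^ 2 = A i j ^ 2 / t := fun i => by rw [div_pow, hsq]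
      simp only [h1]
      rw [← Finset.sum_div, div_le_one ht0]
      refine (Finset.sum_le_sum fun i _ => ?_).trans (hcol j)
      rw [← sq_abs]
      have := abs_nonneg (A i j)
      have := hA i j
      nlinarith) (fun i j => L i j / Real.sqrt t) g (fun z hz i => by
      have h1 := congrFun (hg z hz) i
      simp only [Finset.sum_apply, Pi.smul_apply, smul_eq_mul, Pi.zero_apply] at h1
      have h2 : ∑ j, L i j / Real.sqrt t * z j = (∑ j, z j * L i j) / Real.sqrt t := by
        rw [Finset.sum_div]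
        exact Finset.sum_congr rfl fun j _ => by ring
      rw [h2, h1, zero_div]) (fun i => T i / Real.sqrt t) (fun i j => D i j) U hU
    (fun i => div_nonneg (hT i) hst0.le) (fun F => by
      have h1 : (40 : ℝ) * ((univ.filter fun i => T i < ∑ j ∈ F, |A i j - L i j|).card : ℝ) ≤
          F.card := by exact_mod_cast (hX F).1
      have h2 : ∀ i, (T i / Real.sqrt t < ∑ j ∈ F, |A i j / Real.sqrt t - L i j / Real.sqrt t|) ↔
          T i < ∑ j ∈ F, |A i j - L i j| := by
        intro i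
        have h3 : ∑ j ∈ F, |A i j / Real.sqrt t - L i j / Real.sqrt t| =
            (∑ j ∈ F, |A i j - L i j|) / Real.sqrt t := by
          rw [Finset.sum_div]
          refine Finset.sum_congr rfl fun j _ => ?_
          rw [← sub_div, abs_div, abs_of_pos hst0]
        rw [h3, div_lt_div_iff_of_pos_right hst0]
      simp only [h2]
      convert h1 using 3) (fun F => by
      have h1 : (40 : ℝ) * ((univ.filter fun i => U i < ∑ j ∈ F, |D i j|).card : ℝ) ≤
          F.card := by exact_mod_cast (hX F).2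
      convert h1 using 3) x₀ hx₀
  refine ⟨y, fun j => eq_or_eq_neg_of_abs_eq (hy1 j), fun i => ?_, hy4⟩
  set s : ℝ := 1 + Real.log (1 + L.rank) with hs
  have hs0 : 1 ≤ s := by
    have : 0 ≤ Real.log (1 + (L.rank : ℝ)) :=
      Real.log_nonneg (by have : (0 : ℝ) ≤ L.rank := Nat.cast_nonneg _; linarith)
    linarith
  have h1 := hy3 i
  have h2 : ∑ j, A i j / Real.sqrt t * (y j - x₀ j) =
      (∑ j, A i j * (y j - x₀ j)) / Real.sqrt t := by
    rw [Finset.sum_div]
    exact Finset.sum_congr rfl fun j _ => by ring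
  rw [h2, abs_div, abs_of_pos hst0, div_le_iff₀ hst0] at h1
  refine h1.trans ?_
  have h3 : Real.sqrt t * Pool.Agent.Q127.Kom.EE δ s ≤
      min (Real.sqrt t * s ^ (1 / 4 : ℝ))
        (Real.sqrt t + (1 + Real.log t) ^ (3 / 2 : ℝ) * Real.sqrt s) := by
    unfold Pool.Agent.Q127.Kom.EE
    rw [mul_min_of_nonneg _ _ hst0.le]
    refine min_le_min le_rfl ?_
    have h4 : 0 ≤ Real.log t := Real.log_nonneg ht
    have h5 : Real.log (1 / δ) ≤ Real.log t := by
      rw [hδ, one_div_one_div, Real.log_sqrt ht0.le]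
      linarith
    have h6 : 0 ≤ Real.log (1 / δ) := by
      rw [hδ, one_div_one_div]
      exact Real.log_nonneg hst1
    have h7 : (1 + Real.log (1 / δ)) ^ (3 / 2 : ℝ) ≤ (1 + Real.log t) ^ (3 / 2 : ℝ) :=
      Real.rpow_le_rpow (by linarith) (by linarith) (by norm_num)
    have h8 : Real.sqrt t * (1 + δ * Real.sqrt s * (1 + Real.log (1 / δ)) ^ (3 / 2 : ℝ)) =
        Real.sqrt t + (1 + Real.log (1 / δ)) ^ (3 / 2 : ℝ) * Real.sqrt s := by
      rw [hδ]
      field_simp
    rw [h8]
    have h9 := mul_le_mul_of_nonneg_right h7 (Real.sqrt_nonneg s)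
    linarith
  have h10 : (2 * (T i / Real.sqrt t) + 200000000 * Pool.Agent.Q127.Kom.EE δ s) * Real.sqrt t =
      2 * T i + 200000000 * (Real.sqrt t * Pool.Agent.Q127.Kom.EE δ s) := by
    field_simp
  rw [h10]
  have := mul_le_mul_of_nonneg_left h3 (by norm_num : (0 : ℝ) ≤ 200000000)
  linarith

/-- The numerical part of (2). -/
theorem num (t : ℝ) (ht : 1 ≤ t) (r : ℝ) (hr0 : 0 ≤ r)
    (hr : r ≤ Real.exp (t / (1 + Real.log t) ^ 3)) :
    (1 + Real.log t) ^ (3 / 2 : ℝ) * Real.sqrt (1 + Real.log (1 + r)) ≤ 8 * Real.sqrt t := by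
  have hl : 0 ≤ Real.log t := Real.log_nonneg ht
  set u : ℝ := 1 + Real.log t with hu
  have hu1 : 1 ≤ u := by linarith
  have hu0 : 0 < u := by linarith
  have ht0 : 0 < t := by linarith
  have h27 : u ^ 3 ≤ 27 * t := by
    have h1 : u ≤ 3 * t ^ (1 / 3 : ℝ) := by
      have h2 : Real.log t = 3 * Real.log (t ^ (1 / 3 : ℝ)) := by
        rw [Real.log_rpow ht0]; ring
      have h3 := Real.log_le_sub_one_of_pos (Real.rpow_pos_of_pos ht0 (1 / 3 : ℝ))
      have h4 := Real.rpow_pos_of_pos ht0 (1 / 3 : ℝ)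
      rw [hu, h2]
      linarith
    calc u ^ 3 ≤ (3 * t ^ (1 / 3 : ℝ)) ^ 3 := pow_le_pow_left₀ hu0.le h1 3
      _ = 27 * t := by
          rw [mul_pow, ← Real.rpow_natCast (t ^ (1 / 3 : ℝ)), ← Real.rpow_mul ht0.le]
          norm_num
  have hexp : 1 ≤ Real.exp (t / u ^ 3) := Real.one_le_exp (by positivity)
  have hlog : Real.log (1 + r) ≤ 1 + t / u ^ 3 := by
    have h1 : Real.log (1 + r) ≤ Real.log (2 * Real.exp (t / u ^ 3)) :=
      Real.log_le_log (by linarith) (by linarith)
    rw [Real.log_mul (by norm_num) (Real.exp_pos _).ne', Real.log_exp] at h1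
    have := Real.log_two_lt_d9
    linarith
  have hmain : u ^ 3 * (1 + Real.log (1 + r)) ≤ 64 * t := by
    have h1 : u ^ 3 * (1 + Real.log (1 + r)) ≤ u ^ 3 * (2 + t / u ^ 3) :=
      mul_le_mul_of_nonneg_left (by linarith) (by positivity)
    have h2 : u ^ 3 * (2 + t / u ^ 3) = 2 * u ^ 3 + t := by field_simp
    linarith
  have h3 : u ^ (3 / 2 : ℝ) = Real.sqrt (u ^ 3) := by
    rw [Real.sqrt_eq_rpow, ← Real.rpow_natCast, ← Real.rpow_mul hu0.le]
    norm_num
  rw [h3, ← Real.sqrt_mul (by positivity)]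
  refine (Real.sqrt_le_sqrt hmain).trans (le_of_eq ?_)
  rw [Real.sqrt_mul (by norm_num), show (64 : ℝ) = 8 ^ 2 by norm_num, Real.sqrt_sq (by norm_num)]

/-- Part (2) with a constant. -/
theorem part_two (m n t : ℕ) (S : Fin m → Finset (Fin n)) (L : Matrix (Fin m) (Fin n) ℝ)
    (ht : 1 ≤ t) (hdeg : ∀ j, (univ.filter fun i => j ∈ S i).card ≤ t)
    (hL : ∀ j, ∑ i, |(if j ∈ S i then 1 else 0) - L i j| ≤ Real.sqrt t)
    (hrank : (L.rank : ℝ) ≤ Real.exp (t / (1 + Real.log t) ^ 3)) :
    ∃ x : Fin n → ℝ, (∀ j, x j = 1 ∨ x j = -1) ∧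
      ∀ i, |∑ j ∈ S i, x j| ≤ 2000000000 * Real.sqrt t := by
  classical
  have htR : (1 : ℝ) ≤ t := by exact_mod_cast ht
  have hst0 : 0 < Real.sqrt t := Real.sqrt_pos.mpr (by linarith)
  let A : Matrix (Fin m) (Fin n) ℝ := fun i j => if j ∈ S i then 1 else 0
  obtain ⟨x, hx1, hx2, -⟩ := part_one m n 0 t A L (fun _ _ => 0) (fun _ => 40 * Real.sqrt t)
    (fun _ => 0) (fun _ => 0) htR
    (fun i j => by
      simp only [A]
      split_ifs <;> simp)
    (fun j => by
      have h1 : ∑ i, |A i j| = ((univ.filter fun i => j ∈ S i).card : ℝ) := by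
        rw [Finset.card_filter]
        push_cast
        refine Finset.sum_congr rfl fun i _ => ?_
        simp only [A]
        split_ifs <;> simp
      rw [h1]
      exact_mod_cast hdeg j)
    (fun _ => by positivity) (fun _ => le_rfl)
    (fun X => by
      refine ⟨?_, by simp⟩
      have h1 := Finset.card_nsmul_le_sum
        (univ.filter fun i => 40 * Real.sqrt t < ∑ j ∈ X, |A i j - L i j|)
        (fun i => ∑ j ∈ X, |A i j - L i j|) (40 * Real.sqrt t)
        (fun i hi => (Finset.mem_filter.mp hi).2.le)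
      rw [nsmul_eq_mul] at h1
      have h2 : ∑ i ∈ univ.filter (fun i => 40 * Real.sqrt t < ∑ j ∈ X, |A i j - L i j|),
          ∑ j ∈ X, |A i j - L i j| ≤ X.card * Real.sqrt t := by
        calc ∑ i ∈ univ.filter (fun i => 40 * Real.sqrt t < ∑ j ∈ X, |A i j - L i j|),
              ∑ j ∈ X, |A i j - L i j|
            ≤ ∑ i, ∑ j ∈ X, |A i j - L i j| := Finset.sum_le_sum_of_subset_of_nonneg
              (Finset.filter_subset _ _) fun _ _ _ => Finset.sum_nonneg fun _ _ => abs_nonneg _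
          _ = ∑ j ∈ X, ∑ i, |A i j - L i j| := Finset.sum_comm
          _ ≤ ∑ j ∈ X, Real.sqrt t := Finset.sum_le_sum fun j _ => hL j
          _ = X.card * Real.sqrt t := by rw [Finset.sum_const, nsmul_eq_mul]
      have h3 : (40 * ((univ.filter fun i =>
          40 * Real.sqrt t < ∑ j ∈ X, |A i j - L i j|).card : ℝ)) * Real.sqrt t ≤
          X.card * Real.sqrt t := by linarith
      have h4 := le_of_mul_le_mul_right h3 hst0
      exact_mod_cast h4)
    (fun _ => by simp)
  refine ⟨x, hx1, fun i => ?_⟩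
  have h1 := hx2 i
  have h2 : ∑ j, A i j * (x j - 0) = ∑ j ∈ S i, x j := by
    have h3 : ∀ j, A i j * (x j - 0) = if j ∈ S i then x j else 0 := by
      intro j
      simp only [A]
      split_ifs <;> simp
    rw [Finset.sum_congr rfl fun j _ => h3 j, ← Finset.sum_filter]
    congr 1
    ext j
    simp
  rw [h2] at h1
  refine h1.trans ?_
  have h3 := num t htR L.rank (Nat.cast_nonneg _) hrank
  have h4 := min_le_right (Real.sqrt t * (1 + Real.log (1 + L.rank)) ^ (1 / 4 : ℝ))
    (Real.sqrt t + (1 + Real.log t) ^ (3 / 2 : ℝ) * Real.sqrt (1 + Real.log (1 + L.rank)))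
  linarith

theorem result : ∃ C : ℝ,
    (∀ (m n k : ℕ) (t : ℝ) (A L : Matrix (Fin m) (Fin n) ℝ) (D : Matrix (Fin k) (Fin n) ℝ)
      (T : Fin m → ℝ) (U : Fin k → ℝ) (x₀ : Fin n → ℝ), 1 ≤ t → (∀ i j, |A i j| ≤ 1) →
      (∀ j, ∑ i, |A i j| ≤ t) → (∀ i, 0 ≤ T i) → (∀ i, 0 ≤ U i) →
      (∀ X : Finset (Fin n),
        40 * (univ.filter fun i => T i < ∑ j ∈ X, |A i j - L i j|).card ≤ X.card ∧
        40 * (univ.filter fun i => U i < ∑ j ∈ X, |D i j|).card ≤ X.card) →
      (∀ j, |x₀ j| ≤ 1) →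
      ∃ x : Fin n → ℝ, (∀ j, x j = 1 ∨ x j = -1) ∧
        (∀ i, |∑ j, A i j * (x j - x₀ j)| ≤ 2 * T i + C * min
          (Real.sqrt t * (1 + Real.log (1 + L.rank)) ^ (1 / 4 : ℝ))
          (Real.sqrt t + (1 + Real.log t) ^ (3 / 2 : ℝ) *
            Real.sqrt (1 + Real.log (1 + L.rank)))) ∧
        ∀ i, |∑ j, D i j * (x j - x₀ j)| ≤ 2 * U i) ∧
    (∀ (m n t : ℕ) (S : Fin m → Finset (Fin n)) (L : Matrix (Fin m) (Fin n) ℝ), 1 ≤ t →
      (∀ j, (univ.filter fun i => j ∈ S i).card ≤ t) →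
      (∀ j, ∑ i, |(if j ∈ S i then 1 else 0) - L i j| ≤ Real.sqrt t) →
      (L.rank : ℝ) ≤ Real.exp (t / (1 + Real.log t) ^ 3) →
      ∃ x : Fin n → ℝ, (∀ j, x j = 1 ∨ x j = -1) ∧ ∀ i, |∑ j ∈ S i, x j| ≤ C * Real.sqrt t) ∧
    ∀ (m n t : ℕ) (S : Fin m → Finset (Fin n)) (F : Finset (Fin m)), 1 ≤ t →
      (∀ j, (univ.filter fun i => j ∈ S i).card ≤ t) →
      (∀ j, ((univ.filter fun i => j ∈ S i ∧ i ∉ F).card : ℝ) ≤ Real.sqrt t) →
      (F.card : ℝ) ≤ Real.exp (t / (1 + Real.log t) ^ 3) →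
      ∃ x : Fin n → ℝ, (∀ j, x j = 1 ∨ x j = -1) ∧ ∀ i, |∑ j ∈ S i, x j| ≤ C * Real.sqrt t := by
  classical
  refine ⟨2000000000, fun m n k t A L D T U x₀ ht hA hcol hT hU hX hx₀ => ?_,
    fun m n t S L ht hdeg hL hrank => part_two m n t S L ht hdeg hL hrank,
    fun m n t S F ht hdeg hF hcard => ?_⟩
  · obtain ⟨x, hx1, hx2, hx3⟩ := part_one m n k t A L D T U x₀ ht hA hcol hT hU hX hx₀
    refine ⟨x, hx1, fun i => (hx2 i).trans ?_, hx3⟩
    have hs0 : 0 ≤ Real.log (1 + (L.rank : ℝ)) :=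
      Real.log_nonneg (by have : (0 : ℝ) ≤ L.rank := Nat.cast_nonneg _; linarith)
    have hl : 0 ≤ Real.log t := Real.log_nonneg ht
    have h1 : 0 ≤ min (Real.sqrt t * (1 + Real.log (1 + L.rank)) ^ (1 / 4 : ℝ))
          (Real.sqrt t + (1 + Real.log t) ^ (3 / 2 : ℝ) *
            Real.sqrt (1 + Real.log (1 + L.rank))) := le_min (by positivity) (by positivity)
    linarith
  · let L : Matrix (Fin m) (Fin n) ℝ := fun i j => if j ∈ S i ∧ i ∈ F then 1 else 0
    refine part_two m n t S L ht hdeg (fun j => ?_) ?_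
    · refine le_trans (le_of_eq ?_) (hF j)
      rw [Finset.card_filter]
      push_cast
      refine Finset.sum_congr rfl fun i _ => ?_
      simp only [L]
      by_cases h1 : j ∈ S i <;> by_cases h2 : i ∈ F <;> simp [h1, h2]
    · refine le_trans ?_ hcard
      have h1 : L.rank ≤ F.card := by
        rw [Matrix.rank_eq_finrank_span_row]
        have h2 : Submodule.span ℝ (Set.range L.row) ≤
            Submodule.span ℝ ((F.image L.row : Finset (Fin n → ℝ)) : Set (Fin n → ℝ)) := by
          rw [Submodule.span_le]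
          rintro _ ⟨i, rfl⟩
          by_cases hi : i ∈ F
          · apply Submodule.subset_span
            rw [Finset.coe_image]
            exact ⟨i, hi, rfl⟩
          · have h3 : L.row i = 0 := by
              funext j
              simp [Matrix.row, L, hi]
            rw [h3]
            exact Submodule.zero_mem _
        refine (Submodule.finrank_mono h2).trans ?_
        exact (finrank_span_finset_le_card _).trans Finset.card_image_le
      exact_mod_cast h1

end Pool.Agent.Results.MP_e8ee11_co.NearLowRank
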