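import Pool.Agent.Q123.BF.Ring

/-!
Problem MP_e8ee11_co (the Beck-Fiala conjecture), for set systems closed under union and
intersection: the exact value of the maximal discrepancy, for every degree.
-/

set_option autoImplicit false

open Finset

namespace Pool.Agent.Results.MP_e8ee11_co.RingsOfSets

/-- The set system `F` is closed under union and intersection of two of its members. -/
def ClosedSystem {n : ℕ} (F : Finset (Finset (Fin n))) : Prop :=
  (∀ S ∈ F, ∀ T ∈ F, S ∪ T ∈ F) ∧ (∀ S ∈ F, ∀ T ∈ F, S ∩ T ∈ F)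

/-- Every element of the ground set lies in at most `t` members. -/
def DegreeLE {n : ℕ} (F : Finset (Finset (Fin n))) (t : ℕ) : Prop :=
  ∀ v, (F.filter fun S => v ∈ S).card ≤ t

/-- A colouring by `1` and `-1`. -/
def IsColouring {n : ℕ} (χ : Fin n → ℤ) : Prop := ∀ i, χ i = 1 ∨ χ i = -1

/-- For `t ≥ 1` the largest discrepancy of a system of degree at most `t` that is closed under union
and intersection is `⌈(1 + ⌊log₂ t⌋) / 2⌉`. -/
theorem result (t : ℕ) (ht : 1 ≤ t) :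
    (∀ (n : ℕ) (F : Finset (Finset (Fin n))), ClosedSystem F → DegreeLE F t →
      ∃ χ : Fin n → ℤ, IsColouring χ ∧
        ∀ S ∈ F, |∑ i ∈ S, χ i| ≤ (((Nat.log 2 t + 2) / 2 : ℕ) : ℤ)) ∧
    (∃ (n : ℕ) (F : Finset (Finset (Fin n))), ClosedSystem F ∧ DegreeLE F t ∧
      ∀ χ : Fin n → ℤ, IsColouring χ →
        ∃ S ∈ F, (((Nat.log 2 t + 2) / 2 : ℕ) : ℤ) ≤ |∑ i ∈ S, χ i|) := by
  constructor
  · intro n F hF hd
    exact Q123.BF.upper hF.1 hF.2 hd
  · obtain ⟨n, F, h1, h2, h3, h4⟩ := Q123.BF.lower ht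
    exact ⟨n, F, ⟨h1, h2⟩, h3, h4⟩

end Pool.Agent.Results.MP_e8ee11_co.RingsOfSets
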