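import Pool.Agent.Q299.BF.Main
import Pool.Agent.Q299.BF.Equiv

/-!
# Beck–Fiala: separated elements

Partial results on the Beck–Fiala conjecture for set systems of maximum degree at most `t`.
Two elements are separated by a set which contains exactly one of them.

(1) Let `r` be arbitrary.  There is a set `X` of elements which are pairwise separated by more
than `r` sets, such that every colouring of `X` gives a colouring of the system in which the
discrepancy of every set is larger by at most `r`.

(2) So the discrepancy is at most `2 r + C k (√t + (1 + log t)² √(log s)) +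
C (√t + (1 + log t)^(3/2) √(log^{(k+1)} N))` when at most `N` elements (or at most `N` sets) are
pairwise more than `r` apart, and every set contains at most `s` such elements.

(3) It is at most `C √t` when at most `exp (t / (1 + log t)³)` elements (or sets) are pairwise
more than `√t` apart.

(4) Let `0 ≤ c < 1/4`.  If the Beck–Fiala conjecture holds for the systems in which every two
elements are separated by more than `c t` sets, then it holds for all systems.
-/

set_option autoImplicit false

namespace Pool.Agent.Results.MP_e8ee11_co.SeparatedElements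

open Finset

/-- The degree of the element `j`. -/
def degree {m n : ℕ} (S : Fin m → Finset (Fin n)) (j : Fin n) : ℕ :=
  (univ.filter fun i => j ∈ S i).card

/-- The number of sets that contain exactly one of the elements `j` and `k`. -/
def sep {m n : ℕ} (S : Fin m → Finset (Fin n)) (j k : Fin n) : ℕ :=
  (univ.filter fun i => ¬ (j ∈ S i ↔ k ∈ S i)).card

/-- Every two elements of `X` are separated by more than `r` sets. -/
def ElementsApart {m n : ℕ} (S : Fin m → Finset (Fin n)) (r : ℕ) (X : Finset (Fin n)) : Prop :=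
  ∀ j ∈ X, ∀ k ∈ X, j ≠ k → r < sep S j k

/-- Every two sets with different indices in `Y` differ in more than `r` elements. -/
def SetsApart {m n : ℕ} (S : Fin m → Finset (Fin n)) (r : ℕ) (Y : Finset (Fin m)) : Prop :=
  ∀ i ∈ Y, ∀ i' ∈ Y, i ≠ i' → r < (symmDiff (S i) (S i')).card

/-- All values are `1` or `-1`. -/
def IsColouring {n : ℕ} (x : Fin n → ℝ) : Prop := ∀ j, x j = 1 ∨ x j = -1

/-- **Beck–Fiala, separated elements.** -/
theorem result :
    -- (1) pairing of elements that are separated by few sets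
    (∀ (m n r : ℕ) (S : Fin m → Finset (Fin n)), ∃ X : Finset (Fin n), ElementsApart S r X ∧
      ∀ y : Fin n → ℝ, IsColouring y → ∃ x : Fin n → ℝ, IsColouring x ∧
        ∀ i, |∑ j ∈ S i, x j| ≤ r + |∑ j ∈ S i ∩ X, y j|) ∧
    -- (2) few separated elements or sets, also locally
    (∃ C : ℝ, 0 < C ∧ ∀ m n t r s N k : ℕ, 1 ≤ t → 1 ≤ s → ∀ S : Fin m → Finset (Fin n),
      (∀ j, degree S j ≤ t) →
      (∀ X, ElementsApart S r X → ∀ i, (S i ∩ X).card ≤ s) →
      ((∀ X, ElementsApart S r X → X.card ≤ N) ∨ (∀ Y, SetsApart S r Y → Y.card ≤ N)) →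
      ∃ x : Fin n → ℝ, IsColouring x ∧ ∀ i, |∑ j ∈ S i, x j| ≤
        2 * r + C * k * (Real.sqrt t + (1 + Real.log t) ^ 2 * Real.sqrt (Real.log s))
          + C * (Real.sqrt t + (1 + Real.log t) ^ (3 / 2 : ℝ)
              * Real.sqrt ((fun x : ℝ => Real.log (1 + x))^[k + 1] N))) ∧
    -- (3) the Beck–Fiala bound
    (∃ C : ℝ, 0 < C ∧ ∀ m n t : ℕ, 1 ≤ t → ∀ S : Fin m → Finset (Fin n),
      (∀ j, degree S j ≤ t) →
      ((∀ X, ElementsApart S (Nat.sqrt t) X →
          (X.card : ℝ) ≤ Real.exp (t / (1 + Real.log t) ^ 3)) ∨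
        (∀ Y, SetsApart S (Nat.sqrt t) Y →
          (Y.card : ℝ) ≤ Real.exp (t / (1 + Real.log t) ^ 3))) →
      ∃ x : Fin n → ℝ, IsColouring x ∧ ∀ i, |∑ j ∈ S i, x j| ≤ C * Real.sqrt t) ∧
    -- (4) systems whose elements are pairwise separated by more than `c t` sets are enough
    (∀ c C : ℝ, 0 ≤ c → c < 1 / 4 → 0 ≤ C →
      (∀ (m n t : ℕ) (S : Fin m → Finset (Fin n)), (∀ j, degree S j ≤ t) →
        (∀ j k, j ≠ k → c * t < sep S j k) →
        ∃ x : Fin n → ℝ, IsColouring x ∧ ∀ i, |∑ j ∈ S i, x j| ≤ C * Real.sqrt t) →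
      ∀ (m n t : ℕ) (S : Fin m → Finset (Fin n)), (∀ j, degree S j ≤ t) →
        ∃ x : Fin n → ℝ, IsColouring x ∧
          ∀ i, |∑ j ∈ S i, x j| ≤ C / (1 - 2 * Real.sqrt c) * Real.sqrt t) := by
  refine ⟨fun m n r S => Q299.BF.reduction S r, Q299.BF.main, Q299.BF.main_sqrt, ?_⟩
  intro c C hc0 hc hC H m n t S hdeg
  exact Q299.BF.equivalence hc0 hc hC H t m n S hdeg

end Pool.Agent.Results.MP_e8ee11_co.SeparatedElements
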